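import Mathlib

/-!
The exponential growth rate and the limit of the ratios of a sequence with an asymptotic expansion.
-/

namespace Pool.Agent.Kashaev.VC

open Finset Real Filter Topology

/-- The normalized sequence. -/
noncomputable def gn (J : ℕ → ℂ) (c : ℂ) (N : ℕ) : ℂ :=
  J N / ((((N : ℝ) ^ (3 / 2 : ℝ) : ℝ) : ℂ) * Complex.exp (c * N))

theorem gn_tendsto {J : ℕ → ℂ} {c w : ℂ} {B : ℝ}
    (h : ∀ N : ℕ, 1 ≤ N → ‖J N - ((N : ℝ) ^ (3 / 2 : ℝ) : ℝ) * Complex.exp (c * N) * w‖ ≤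
      B * ((N : ℝ) ^ (3 / 2 : ℝ) * Real.exp (c.re * N)) / N) :
    Tendsto (gn J c) atTop (𝓝 w) := by
  rw [tendsto_iff_norm_sub_tendsto_zero]
  have h1 : Tendsto (fun N : ℕ => B / (N : ℝ)) atTop (𝓝 0) := tendsto_const_div_atTop_nhds_zero_nat B
  refine squeeze_zero' (Eventually.of_forall fun _ => norm_nonneg _) ?_ h1
  filter_upwards [eventually_ge_atTop 1] with N hN
  have hN0 : (0 : ℝ) < N := by exact_mod_cast hN
  have hp : 0 < (N : ℝ) ^ (3 / 2 : ℝ) := Real.rpow_pos_of_pos hN0 _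
  have hne : ((((N : ℝ) ^ (3 / 2 : ℝ) : ℝ) : ℂ) * Complex.exp (c * N)) ≠ 0 :=
    mul_ne_zero (Complex.ofReal_ne_zero.2 hp.ne') (Complex.exp_ne_zero _)
  have hn : ‖((((N : ℝ) ^ (3 / 2 : ℝ) : ℝ) : ℂ) * Complex.exp (c * N))‖ =
      (N : ℝ) ^ (3 / 2 : ℝ) * Real.exp (c.re * N) := by
    rw [norm_mul, Complex.norm_real, Real.norm_of_nonneg hp.le, Complex.norm_exp]
    congr 2
    simp
  have e : gn J c N - w = (J N - ((N : ℝ) ^ (3 / 2 : ℝ) : ℝ) * Complex.exp (c * N) * w) /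
      ((((N : ℝ) ^ (3 / 2 : ℝ) : ℝ) : ℂ) * Complex.exp (c * N)) := by
    unfold gn
    rw [sub_div, mul_div_cancel_left₀ _ hne]
  have hq : 0 < (N : ℝ) ^ (3 / 2 : ℝ) * Real.exp (c.re * N) := by positivity
  rw [e, norm_div, hn, div_le_iff₀ hq]
  refine (h N hN).trans (le_of_eq ?_)
  ring

theorem log_growth {J : ℕ → ℂ} {c w : ℂ} (hw : w ≠ 0) {B : ℝ}
    (h : ∀ N : ℕ, 1 ≤ N → ‖J N - ((N : ℝ) ^ (3 / 2 : ℝ) : ℝ) * Complex.exp (c * N) * w‖ ≤
      B * ((N : ℝ) ^ (3 / 2 : ℝ) * Real.exp (c.re * N)) / N) :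
    Tendsto (fun N : ℕ => Real.log ‖J N‖ / N) atTop (𝓝 c.re) := by
  have hg := gn_tendsto h
  have hgn : Tendsto (fun N => Real.log ‖gn J c N‖) atTop (𝓝 (Real.log ‖w‖)) :=
    (Real.continuousAt_log (norm_ne_zero_iff.2 hw)).tendsto.comp hg.norm
  have h1 : Tendsto (fun N : ℕ => Real.log ‖gn J c N‖ / N) atTop (𝓝 0) :=
    hgn.div_atTop tendsto_natCast_atTop_atTop
  have h2 : Tendsto (fun N : ℕ => Real.log N / N) atTop (𝓝 0) := by
    have := (Real.isLittleO_log_id_atTop.tendsto_div_nhds_zero).comp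
      (tendsto_natCast_atTop_atTop (R := ℝ))
    exact this
  have h3 : Tendsto (fun N : ℕ => Real.log ‖gn J c N‖ / N + 3 / 2 * (Real.log N / N) + c.re)
      atTop (𝓝 (0 + 3 / 2 * 0 + c.re)) := (h1.add (h2.const_mul _)).add_const _
  have h4 : (0 + 3 / 2 * 0 + c.re : ℝ) = c.re := by ring
  rw [h4] at h3
  refine h3.congr' ?_
  filter_upwards [eventually_ge_atTop 1, hg.eventually_ne hw] with N hN hgne
  have hN0 : (0 : ℝ) < N := by exact_mod_cast hN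
  have hp : 0 < (N : ℝ) ^ (3 / 2 : ℝ) := Real.rpow_pos_of_pos hN0 _
  have hne : ((((N : ℝ) ^ (3 / 2 : ℝ) : ℝ) : ℂ) * Complex.exp (c * N)) ≠ 0 :=
    mul_ne_zero (Complex.ofReal_ne_zero.2 hp.ne') (Complex.exp_ne_zero _)
  have hn : ‖((((N : ℝ) ^ (3 / 2 : ℝ) : ℝ) : ℂ) * Complex.exp (c * N))‖ =
      (N : ℝ) ^ (3 / 2 : ℝ) * Real.exp (c.re * N) := by
    rw [norm_mul, Complex.norm_real, Real.norm_of_nonneg hp.le, Complex.norm_exp]
    congr 2
    simp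
  have e : J N = gn J c N * ((((N : ℝ) ^ (3 / 2 : ℝ) : ℝ) : ℂ) * Complex.exp (c * N)) := by
    unfold gn
    rw [div_mul_cancel₀ _ hne]
  have hJ : Real.log ‖J N‖ = Real.log ‖gn J c N‖ + (3 / 2 * Real.log N + c.re * N) := by
    rw [e, norm_mul, hn, Real.log_mul (norm_ne_zero_iff.2 hgne) (by positivity),
      Real.log_mul hp.ne' (Real.exp_ne_zero _), Real.log_rpow hN0, Real.log_exp]
  rw [hJ]
  field_simp
  ring

theorem ratio_tendsto {J : ℕ → ℂ} {c w : ℂ} (hw : w ≠ 0) {B : ℝ}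
    (h : ∀ N : ℕ, 1 ≤ N → ‖J N - ((N : ℝ) ^ (3 / 2 : ℝ) : ℝ) * Complex.exp (c * N) * w‖ ≤
      B * ((N : ℝ) ^ (3 / 2 : ℝ) * Real.exp (c.re * N)) / N) :
    (∀ᶠ N in atTop, J N ≠ 0) ∧
      Tendsto (fun N : ℕ => J (N + 1) / J N) atTop (𝓝 (Complex.exp c)) := by
  have hg := gn_tendsto h
  have hf : ∀ N : ℕ, 1 ≤ N →
      ((((N : ℝ) ^ (3 / 2 : ℝ) : ℝ) : ℂ) * Complex.exp (c * N)) ≠ 0 := by
    intro N hN
    have hN0 : (0 : ℝ) < N := by exact_mod_cast hN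
    have hp : 0 < (N : ℝ) ^ (3 / 2 : ℝ) := Real.rpow_pos_of_pos hN0 _
    exact mul_ne_zero (Complex.ofReal_ne_zero.2 hp.ne') (Complex.exp_ne_zero _)
  have e : ∀ N : ℕ, 1 ≤ N →
      J N = gn J c N * ((((N : ℝ) ^ (3 / 2 : ℝ) : ℝ) : ℂ) * Complex.exp (c * N)) := by
    intro N hN
    unfold gn
    rw [div_mul_cancel₀ _ (hf N hN)]
  constructor
  · filter_upwards [eventually_ge_atTop 1, hg.eventually_ne hw] with N hN hgne
    rw [e N hN]
    exact mul_ne_zero hgne (hf N hN)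
  · have h1 : Tendsto (fun N : ℕ => gn J c (N + 1) / gn J c N) atTop (𝓝 (w / w)) :=
      (hg.comp (tendsto_add_atTop_nat 1)).div hg hw
    have h2 : Tendsto (fun N : ℕ => ((((1 + 1 / (N : ℝ)) ^ (3 / 2 : ℝ) : ℝ)) : ℂ)) atTop
        (𝓝 (((1 : ℝ) : ℂ))) := by
      refine (Complex.continuous_ofReal.tendsto _).comp ?_
      have h3 : Tendsto (fun N : ℕ => 1 + 1 / (N : ℝ)) atTop (𝓝 (1 + 0)) :=
        tendsto_const_nhds.add tendsto_one_div_atTop_nhds_zero_nat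
      rw [add_zero] at h3
      have h4 := (Real.continuousAt_rpow_const 1 (3 / 2 : ℝ) (Or.inr (by norm_num))).tendsto.comp h3
      rw [Real.one_rpow] at h4
      exact h4
    have h5 := (h1.mul h2).mul_const (Complex.exp c)
    rw [div_self hw, Complex.ofReal_one, one_mul, one_mul] at h5
    refine h5.congr' ?_
    filter_upwards [eventually_ge_atTop 1, hg.eventually_ne hw] with N hN hgne
    have hN0 : (0 : ℝ) < N := by exact_mod_cast hN
    have hp : 0 < (N : ℝ) ^ (3 / 2 : ℝ) := Real.rpow_pos_of_pos hN0 _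
    have hpC : (((N : ℝ) ^ (3 / 2 : ℝ) : ℝ) : ℂ) ≠ 0 := Complex.ofReal_ne_zero.2 hp.ne'
    have hr : (((1 + 1 / (N : ℝ)) ^ (3 / 2 : ℝ) : ℝ) : ℂ) * (((N : ℝ) ^ (3 / 2 : ℝ) : ℝ) : ℂ) =
        ((((N + 1 : ℕ) : ℝ) ^ (3 / 2 : ℝ) : ℝ) : ℂ) := by
      rw [← Complex.ofReal_mul, ← Real.mul_rpow (by positivity) hN0.le]
      congr 2
      push_cast
      field_simp
    have hx : Complex.exp (c * ((N + 1 : ℕ) : ℂ)) = Complex.exp (c * N) * Complex.exp c := by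
      rw [← Complex.exp_add]
      congr 1
      push_cast
      ring
    rw [e (N + 1) (by omega), e N hN, hx, ← hr]
    have hE := Complex.exp_ne_zero (c * N)
    field_simp

end Pool.Agent.Kashaev.VC
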